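import Mathlib
import Pool.Agent.Helper310.Linear

/-!
# Free groups are residually `SL₂(ℚ)`; maps of the generators
-/

set_option autoImplicit false

namespace Pool.Agent.Run7.h1.RF

open FreeGroup Matrix

/-- A map of the generators which is injective on the letters of `w` does not kill `w`. -/
theorem map_ne_one {X Y : Type} [DecidableEq X] (h : X → Y) (w : FreeGroup X) (hw : w ≠ 1)
    (hinj : ∀ a ∈ w.toWord, ∀ b ∈ w.toWord, h a.1 = h b.1 → a.1 = b.1) :
    FreeGroup.map h w ≠ 1 := by
  classical
  have hred : FreeGroup.IsReduced w.toWord := isReduced_toWord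
  have hmk : FreeGroup.mk w.toWord = w := mk_toWord
  have hne : w.toWord ≠ [] := fun h => hw (toWord_eq_nil_iff.1 h)
  have h1 : FreeGroup.IsReduced (w.toWord.map fun x => (h x.1, x.2)) := by
    generalize w.toWord = L at hred hinj
    clear hmk hne
    induction L with
    | nil => exact IsReduced.nil
    | cons a L ih =>
      cases L with
      | nil => exact IsReduced.singleton
      | cons b L =>
        rw [isReduced_cons_cons] at hred
        rw [List.map_cons, List.map_cons, isReduced_cons_cons]
        refine ⟨fun hab => hred.1 (hinj a (by simp) b (by simp) hab), ?_⟩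
        rw [List.map_cons] at ih
        exact ih hred.2 fun x hx y hy => hinj x (List.mem_cons_of_mem _ hx) y (List.mem_cons_of_mem _ hy)
  intro h2
  rw [← hmk, FreeGroup.map.mk, ← toWord_eq_nil_iff, toWord_mk, h1.reduce_eq, List.map_eq_nil_iff] at h2
  exact hne h2

/-- Every nontrivial element of a free group has a nontrivial image under a map of the generators
to finitely many generators. -/
theorem exists_fin {X : Type} (w : FreeGroup X) (hw : w ≠ 1) :
    ∃ (m : ℕ) (h : X → Fin m), FreeGroup.map h w ≠ 1 := by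
  classical
  have hne : w.toWord ≠ [] := fun h => hw (toWord_eq_nil_iff.1 h)
  obtain ⟨a, L, hL⟩ := List.exists_cons_of_ne_nil hne
  let s : Finset X := (w.toWord.map Prod.fst).toFinset
  have ha : a.1 ∈ s := by
    simp only [s, List.mem_toFinset, List.mem_map]
    exact ⟨a, by rw [hL]; simp, rfl⟩
  let h : X → Fin s.card := fun x => if hx : x ∈ s then s.equivFin ⟨x, hx⟩ else s.equivFin ⟨a.1, ha⟩
  refine ⟨s.card, h, map_ne_one h w hw fun x hx y hy hxy => ?_⟩
  have hx' : x.1 ∈ s := by
    simp only [s, List.mem_toFinset, List.mem_map]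
    exact ⟨x, hx, rfl⟩
  have hy' : y.1 ∈ s := by
    simp only [s, List.mem_toFinset, List.mem_map]
    exact ⟨y, hy, rfl⟩
  simp only [h, hx', hy', dif_pos] at hxy
  exact congrArg Subtype.val (s.equivFin.injective hxy)

/-- Every nontrivial element of a free group has a nontrivial image in the free group of countable
rank. -/
theorem exists_nat {X : Type} (w : FreeGroup X) (hw : w ≠ 1) :
    ∃ h : FreeGroup X →* FreeGroup ℕ, h w ≠ 1 := by
  obtain ⟨m, h, hh⟩ := exists_fin w hw
  refine ⟨(FreeGroup.map (Fin.val : Fin m → ℕ)).comp (FreeGroup.map h), ?_⟩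
  rw [MonoidHom.comp_apply]
  exact map_ne_one _ _ hh fun a _ b _ hab => Fin.ext hab

/-- Free groups are residually `SL₂(ℚ)`. -/
theorem exists_sl {X : Type} (w : FreeGroup X) (hw : w ≠ 1) :
    ∃ σ : FreeGroup X →* SpecialLinearGroup (Fin 2) ℚ, σ w ≠ 1 := by
  obtain ⟨m, h, hh⟩ := exists_fin w hw
  obtain ⟨σ, hσ⟩ := Pool.Agent.Helper310.Linear.exists_rep _ hh
  exact ⟨σ.comp (FreeGroup.map h), hσ⟩

end Pool.Agent.Run7.h1.RF
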