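import Pool.Agent.Run7.h1.RF.Noeth
import Pool.Agent.Run7.h132.FJ.Tower
import Pool.Agent.Run7.h41.QM

/-!
# Kernels with residually free quotients
-/

set_option autoImplicit false

namespace Pool.Agent.Run7.h1.RF

open Pool.Agent.Y110.FJ Pool.Agent.Run7.h132.FJ Run7.h41.PF
open Pool.Agent.Y462.SS (Closed)
open Pool.Agent.R941.FJ (C_equiv C_le C_cyc mem_sup_normal)

/-- `R` embeds in the product of a residually free group and a solvable group: for some `d` every
nontrivial element of the `d`-th derived subgroup of `R` has a nontrivial image under a homomorphism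
from `R` to a free group. -/
def ResFreeSolv (R : Type) [Group R] : Prop :=
  ∃ d : ℕ, ∀ x ∈ derivedSeries R d, x ≠ 1 → ∃ (X : Type) (f : R →* FreeGroup X), f x ≠ 1

/-- All subgroups of `S` are `C`-kernels. -/
def HerKer (C : ∀ (G : Type) [Group G], Prop) (S : Type) [Group S] : Prop :=
  ∀ T : Subgroup S, KerC C T

theorem fbs_of_solvable (Y : Type) [Group Y] (h : Group.IsSolvable Y) : FreeBySolvable Y := by
  refine ⟨⊥, inferInstance, IsFreeGroup.ofMulEquiv (G := FreeGroup Empty) ?_, inferInstance⟩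
  exact
    { toFun := fun _ => 1
      invFun := fun _ => 1
      left_inv := fun x => Subsingleton.elim _ _
      right_inv := fun x => Subsingleton.elim _ _
      map_mul' := fun _ _ => (mul_one _).symm }

/-- Finitely generated groups which embed in the product of a residually free group and a solvable
group embed in finite products of free-by-solvable groups. -/
theorem virtProd_of (hK : ∀ (L : Type) [Group L], IsLimitGroup L → FreeBySolvable L)
    (R : Type) [Group R] [Group.FG R] (hR : ResFreeSolv R) : VirtProd R := by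
  classical
  obtain ⟨d, hd⟩ := hR
  obtain ⟨𝒩, hfin, h1, h2⟩ := exists_limits (R := R) ∅
  have : Finite 𝒩 := hfin
  obtain ⟨n, ⟨e⟩⟩ := Finite.exists_equiv_fin 𝒩
  let M : Fin (n + 1) → Subgroup R := Fin.cases (derivedSeries R d) fun i => (e.symm i).1
  have hM : ∀ i, (M i).Normal := by
    intro i
    refine Fin.cases ?_ (fun i => ?_) i
    · exact (inferInstance : (derivedSeries R d).Normal)
    · exact (h1 _ (e.symm i).2).1
  have hX : ∀ i, FreeBySolvable (R ⧸ M i) := by
    intro i
    revert hM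
    refine Fin.cases (fun hM => ?_) (fun i hM => ?_) i
    · refine fbs_of_solvable _ ?_
      rw [Group.isSolvable_def]
      refine ⟨d, ?_⟩
      have h3 := map_derivedSeries_eq (f := QuotientGroup.mk' (M 0)) (QuotientGroup.mk'_surjective _) d
      rw [← h3, eq_bot_iff]
      rintro _ ⟨x, hx, rfl⟩
      exact (QuotientGroup.eq_one_iff x).2 hx
    · exact hK _ (h1 _ (e.symm i).2).2
  refine ⟨⊤, n + 1, fun i => R ⧸ M i, fun i => inferInstance,
    fun i => (QuotientGroup.mk' (M i)).comp (⊤ : Subgroup R).subtype, inferInstance, hX, ?_⟩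
  rintro ⟨x, hxt⟩ hx
  have hx' : ∀ i, x ∈ M i := fun i => (QuotientGroup.eq_one_iff x).1 (hx i)
  refine Subtype.ext ?_
  by_contra hne
  obtain ⟨X, f, hf⟩ := hd x (hx' 0) hne
  obtain ⟨h, hh⟩ := exists_nat (f x) hf
  refine hh (h2 x (fun N hN => ?_) (h.comp f) fun s hs => hs.elim)
  have := hx' (e ⟨N, hN⟩).succ
  simpa [M] using this

theorem virtProd_sub {S : Type} [Group S] (h : VirtProd S) (T : Subgroup S) : VirtProd T := by
  obtain ⟨H, n, X, hX, f, hH, hfs, hinj⟩ := h
  let j : H.subgroupOf T →* H :=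
    (T.subtype.comp (H.subgroupOf T).subtype).codRestrict H fun x => x.2
  refine ⟨H.subgroupOf T, n, X, hX, fun i => (f i).comp j, inferInstance, hfs, fun x hx => ?_⟩
  have h1 := hinj (j x) hx
  have h2 : ((x : T) : S) = 1 := congrArg Subtype.val h1
  exact Subtype.ext (Subtype.ext h2)

variable {C : ∀ (G : Type) [Group G], Prop}

theorem kerC_of_virtProd (hC : ClosedE C) (hF : Pool.Agent.R684.FP.FbC C) (hS : Solv C)
    {N : Type} [Group N] (h : VirtProd N) : KerC C N := by
  intro G Q _ _ π hπ ⟨e⟩ hQ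
  exact vp_ext hC hF hS π.ker (virtProd_congr e h)
    (C_equiv hC.base (QuotientGroup.quotientKerEquivOfSurjective π hπ) hQ)

/-- **Kernels with residually free quotients.** -/
theorem kerC_main (hR : ∀ (R : Type) [Group R], Group.FG R → ResFreeSolv R → KerC C R)
    (N : Type) [Group N] [hN : Group.FG N] (S : Subgroup N) [hSn : S.Normal] (hS : HerKer C S)
    (hq : ResFreeSolv (N ⧸ S)) : KerC C N := by
  intro G Q _ _ π hπ ⟨e⟩ hQ
  obtain ⟨d, hd⟩ := hq
  let S0 : Subgroup G := (S.comap e.toMonoidHom).map π.ker.subtype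
  have hS0 : ∀ k : π.ker, (k : G) ∈ S0 ↔ e k ∈ S := by
    intro k
    constructor
    · rintro ⟨k', hk', h⟩
      have : k' = k := Subtype.ext h
      rw [← this]
      exact hk'
    · intro h
      exact ⟨k, h, rfl⟩
  let T : Subgroup G := S0.normalCore
  have hT : T ≤ S0 := S0.normalCore_le
  have hS0k : S0 ≤ π.ker := by
    rintro _ ⟨k, -, rfl⟩
    exact k.2
  have hTk : T ≤ π.ker := hT.trans hS0k
  -- the quotient by `T`
  let π' : G ⧸ T →* Q := QuotientGroup.lift T π fun x hx => hTk hx
  have hπ' : Function.Surjective π' := by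
    intro q
    obtain ⟨g, rfl⟩ := hπ q
    exact ⟨QuotientGroup.mk g, rfl⟩
  let ψ : π.ker →* π'.ker :=
    ((QuotientGroup.mk' T).comp π.ker.subtype).codRestrict _ fun x => x.2
  have hψ : Function.Surjective ψ := by
    rintro ⟨y, hy⟩
    obtain ⟨g, rfl⟩ := QuotientGroup.mk_surjective y
    exact ⟨⟨g, hy⟩, rfl⟩
  have hψk : ∀ x : π.ker, ψ x = 1 ↔ (x : G) ∈ T := by
    intro x
    rw [← QuotientGroup.eq_one_iff (N := T)]
    exact ⟨fun h => congrArg Subtype.val h, fun h => Subtype.ext h⟩
  have hfgk : Group.FG π.ker := Group.fg_of_surjective (f := e.symm.toMonoidHom) e.symm.surjective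
  have hstep : C (G ⧸ T) := by
    refine hR π'.ker (Group.fg_of_surjective hψ) ⟨d, fun y hy hy1 => ?_⟩ (G ⧸ T) Q π' hπ'
      ⟨MulEquiv.refl _⟩ hQ
    rw [← map_derivedSeries_eq (f := ψ) hψ] at hy
    obtain ⟨x, hx, rfl⟩ := hy
    have hxT : (x : G) ∉ T := fun h => hy1 ((hψk x).2 h)
    obtain ⟨g, hg⟩ : ∃ g : G, g * x * g⁻¹ ∉ S0 := by
      by_contra hcon
      push Not at hcon
      exact hxT hcon
    let c : π.ker →* π.ker := (MulAut.conjNormal (H := π.ker) g).toMonoidHom
    have hc : ∀ k : π.ker, ((c k : π.ker) : G) = g * k * g⁻¹ := fun k => by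
      simp [c, MulAut.conjNormal_apply]
    let θ : π.ker →* N ⧸ S := (QuotientGroup.mk' S).comp (e.toMonoidHom.comp c)
    have hθ : ∀ k : π.ker, θ k = 1 ↔ g * k * g⁻¹ ∈ S0 := by
      intro k
      rw [← hc, hS0]
      exact QuotientGroup.eq_one_iff _
    have h1 : θ x ∈ derivedSeries (N ⧸ S) d :=
      map_derivedSeries_le_derivedSeries θ d ⟨x, hx, rfl⟩
    obtain ⟨X, f, hf⟩ := hd (θ x) h1 fun h => hg ((hθ x).1 h)
    have hle : ψ.ker ≤ (f.comp θ).ker := by
      intro k hk
      rw [MonoidHom.mem_ker, hψk] at hk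
      rw [MonoidHom.mem_ker, MonoidHom.comp_apply, (hθ k).2, map_one]
      exact hT (Subgroup.Normal.conj_mem inferInstance _ hk g)
    refine ⟨X, ψ.liftOfSurjective hψ ⟨f.comp θ, hle⟩, ?_⟩
    have h2 : ψ.liftOfSurjective hψ ⟨f.comp θ, hle⟩ (ψ x) = f (θ x) :=
      MonoidHom.liftOfRightInverse_comp_apply _ _ _ ⟨f.comp θ, hle⟩ x
    rw [h2]
    exact hf
  -- the kernel `T`
  have hKT : KerC C T := by
    let τ : T →* S :=
      (e.toMonoidHom.comp (Subgroup.inclusion hTk)).codRestrict S fun t => (hS0 _).1 (hT t.2)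
    have hτ : Function.Injective τ := by
      intro x y h
      have h1 : e (Subgroup.inclusion hTk x) = e (Subgroup.inclusion hTk y) :=
        congrArg Subtype.val h
      exact Subgroup.inclusion_injective hTk (e.injective h1)
    exact (hS τ.range).congr (MonoidHom.ofInjective hτ).symm
  exact hKT G (G ⧸ T) (QuotientGroup.mk' T) (QuotientGroup.mk'_surjective T)
    ⟨MulEquiv.subgroupCongr (QuotientGroup.ker_mk' T)⟩ hstep

end Pool.Agent.Run7.h1.RF
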