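import Mathlib
import Pool.Agent.Run7.h1.RF.Free

/-!
# Systems of equations over free groups (they are equationally Noetherian), and limit groups
-/

set_option autoImplicit false

namespace Pool.Agent.Run7.h1.RF

open Matrix MvPolynomial

/-- The ring of the coordinates of pairs of matrices. -/
abbrev P (ι : Type) : Type := MvPolynomial (ι × Fin 2 × Fin 2) ℚ

/-- The generic matrix. -/
noncomputable def XM {ι : Type} (i : ι) : Matrix (Fin 2) (Fin 2) (P ι) :=
  Matrix.of fun a b => X (i, a, b)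

/-- The matrix of a letter. -/
noncomputable def LM {ι : Type} (c : ι × Bool) : Matrix (Fin 2) (Fin 2) (P ι) :=
  if c.2 then XM c.1 else (XM c.1).adjugate

/-- The matrix of a word. -/
noncomputable def WM {ι : Type} (L : List (ι × Bool)) : Matrix (Fin 2) (Fin 2) (P ι) :=
  (L.map LM).prod

/-- The evaluation at a representation. -/
noncomputable def ev {ι : Type} (ρ : FreeGroup ι →* SpecialLinearGroup (Fin 2) ℚ) : P ι →+* ℚ :=
  MvPolynomial.eval fun p => (ρ (FreeGroup.of p.1) : Matrix (Fin 2) (Fin 2) ℚ) p.2.1 p.2.2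

theorem ev_XM {ι : Type} (ρ : FreeGroup ι →* SpecialLinearGroup (Fin 2) ℚ) (i : ι) :
    (ev ρ).mapMatrix (XM i) = (ρ (FreeGroup.of i) : Matrix (Fin 2) (Fin 2) ℚ) := by
  ext a b
  simp [XM, ev]

theorem ev_LM {ι : Type} (ρ : FreeGroup ι →* SpecialLinearGroup (Fin 2) ℚ) (c : ι × Bool) :
    (ev ρ).mapMatrix (LM c) = (ρ (FreeGroup.mk [c]) : Matrix (Fin 2) (Fin 2) ℚ) := by
  obtain ⟨i, b⟩ := c
  cases b
  · have h1 : (FreeGroup.mk [(i, false)] : FreeGroup ι) = (FreeGroup.of i)⁻¹ := by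
      simp [FreeGroup.of, FreeGroup.inv_mk, FreeGroup.invRev]
    rw [h1, map_inv]
    refine Eq.trans ?_ (Matrix.SpecialLinearGroup.coe_inv (ρ (FreeGroup.of i))).symm
    refine Eq.trans ?_ (congrArg Matrix.adjugate (ev_XM ρ i))
    simp only [LM, Bool.false_eq_true, if_false]
    exact RingHom.map_adjugate _ _
  · rw [← FreeGroup.of, ← ev_XM]
    simp [LM]

theorem ev_WM {ι : Type} (ρ : FreeGroup ι →* SpecialLinearGroup (Fin 2) ℚ)
    (L : List (ι × Bool)) :
    (ev ρ).mapMatrix (WM L) = (ρ (FreeGroup.mk L) : Matrix (Fin 2) (Fin 2) ℚ) := by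
  induction L with
  | nil =>
    have : (FreeGroup.mk ([] : List (ι × Bool))) = 1 := rfl
    simp [WM, this]
  | cons c L ih =>
    have h1 : (FreeGroup.mk (c :: L) : FreeGroup ι) = FreeGroup.mk [c] * FreeGroup.mk L := by
      rw [FreeGroup.mul_mk]; rfl
    rw [h1, map_mul]
    refine Eq.trans ?_ (Matrix.SpecialLinearGroup.coe_mul _ _).symm
    refine Eq.trans ?_ (congrArg₂ (· * ·) (ev_LM ρ c) ih)
    simp only [WM, List.map_cons, List.prod_cons, map_mul]

section

variable {R : Type} [Group R] {ι : Type} (π : FreeGroup ι →* R)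

/-- The solutions of a system of equations. -/
def V (S : Set R) : Set (R →* FreeGroup ℕ) := {f | ∀ s ∈ S, f s = 1}

/-- The ideal of a set of homomorphisms. -/
noncomputable def J (W : Set (R →* FreeGroup ℕ)) : Ideal (P ι) :=
  ⨅ f ∈ W, ⨅ σ : FreeGroup ℕ →* SpecialLinearGroup (Fin 2) ℚ, RingHom.ker (ev ((σ.comp f).comp π))

theorem mem_J {W : Set (R →* FreeGroup ℕ)} {p : P ι} :
    p ∈ J π W ↔ ∀ f ∈ W, ∀ σ : FreeGroup ℕ →* SpecialLinearGroup (Fin 2) ℚ,
      ev ((σ.comp f).comp π) p = 0 := by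
  simp only [J, Submodule.mem_iInf, RingHom.mem_ker]

theorem J_anti {W W' : Set (R →* FreeGroup ℕ)} (h : W ⊆ W') : J π W' ≤ J π W := by
  intro p hp
  rw [mem_J] at hp ⊢
  exact fun f hf σ => hp f (h hf) σ

theorem mem_V_of_J (hπ : Function.Surjective π) {S : Set R} {f : R →* FreeGroup ℕ}
    (h : ∀ p ∈ J π (V S), ∀ σ : FreeGroup ℕ →* SpecialLinearGroup (Fin 2) ℚ,
      ev ((σ.comp f).comp π) p = 0) : f ∈ V S := by
  classical
  intro s hs
  by_contra hne
  obtain ⟨σ, hσ⟩ := exists_sl (f s) hne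
  apply hσ
  obtain ⟨w, rfl⟩ := hπ s
  have hmk : FreeGroup.mk w.toWord = w := FreeGroup.mk_toWord
  have h1 : ∀ a b, (WM w.toWord - 1 : Matrix (Fin 2) (Fin 2) (P ι)) a b ∈ J π (V S) := by
    intro a b
    rw [mem_J]
    intro g hg τ
    have h2 : g (π w) = 1 := hg _ hs
    have h3 : (ev ((τ.comp g).comp π)).mapMatrix (WM w.toWord - 1) = 0 := by
      rw [map_sub, ev_WM, hmk, map_one]
      simp [h2]
    exact congrFun (congrFun h3 a) b
  have h2 : (ev ((σ.comp f).comp π)).mapMatrix (WM w.toWord - 1) = 0 := by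
    ext a b
    exact h _ (h1 a b) σ
  rw [map_sub, ev_WM, hmk, map_one, sub_eq_zero] at h2
  exact Subtype.ext h2

/-- **Free groups are equationally Noetherian**, as an induction principle for systems of
equations. -/
theorem induct [Finite ι] (hπ : Function.Surjective π) (Good : Set R → Prop)
    (step : ∀ S : Set R, (∀ T : Set R, V T ⊂ V S → Good T) → Good S) (S : Set R) : Good S := by
  have key : ∀ I : Ideal (P ι), ∀ S : Set R, J π (V S) = I → Good S := by
    intro I
    induction I using WellFoundedGT.induction with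
    | ind I ih =>
      intro S hS
      refine step S fun T hT => ih (J π (V T)) ?_ T rfl
      rw [← hS]
      refine lt_of_le_of_ne (J_anti π hT.subset) fun heq => hT.not_subset fun f hf => ?_
      refine mem_V_of_J π hπ fun p hp σ => ?_
      rw [← heq, mem_J] at hp
      exact hp f hf σ
  exact key _ S rfl

end

/-- **Limit groups**: finitely generated groups `L` such that for every finite set of nontrivial
elements of `L` some homomorphism from `L` to a free group does not kill any of them. -/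
def IsLimitGroup (L : Type) [Group L] : Prop :=
  Group.FG L ∧ ∀ s : Finset L, (∀ x ∈ s, x ≠ 1) →
    ∃ (X : Type) (f : L →* FreeGroup X), ∀ x ∈ s, f x ≠ 1

/-- The solutions of a system of equations in a finitely generated group are given by finitely many
limit quotients. -/
theorem exists_limits {R : Type} [Group R] [hR : Group.FG R] (S : Set R) :
    ∃ 𝒩 : Set (Subgroup R), 𝒩.Finite ∧
      (∀ N ∈ 𝒩, ∃ _ : N.Normal, IsLimitGroup (R ⧸ N)) ∧
      ∀ r : R, (∀ N ∈ 𝒩, r ∈ N) → ∀ f ∈ V S, f r = 1 := by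
  classical
  obtain ⟨ι, hι, π, hπ⟩ := Group.fg_iff_exists_freeGroup_hom_surjective_finite.1 hR
  refine induct π hπ (fun S => ∃ 𝒩 : Set (Subgroup R), 𝒩.Finite ∧
      (∀ N ∈ 𝒩, ∃ _ : N.Normal, IsLimitGroup (R ⧸ N)) ∧
      ∀ r : R, (∀ N ∈ 𝒩, r ∈ N) → ∀ f ∈ V S, f r = 1) (fun S ih => ?_) S
  let N₀ : Subgroup R := ⨅ f ∈ V S, f.ker
  have hmem : ∀ r, r ∈ N₀ ↔ ∀ f ∈ V S, f r = 1 := by
    intro r
    simp only [N₀, Subgroup.mem_iInf, MonoidHom.mem_ker]
  by_cases hirr : ∀ s : Finset R, (∀ x ∈ s, x ∉ N₀) → ∃ f ∈ V S, ∀ x ∈ s, f x ≠ 1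
  · have hn : N₀.Normal := by
      refine ⟨fun r hr g => ?_⟩
      rw [hmem] at hr ⊢
      intro f hf
      rw [map_mul, map_mul, hr f hf, mul_one, map_inv, mul_inv_cancel]
    refine ⟨{N₀}, Set.finite_singleton _, ?_, fun r hr f hf => (hmem r).1 (hr _ rfl) f hf⟩
    rintro N rfl
    refine ⟨hn, inferInstance, fun s hs => ?_⟩
    obtain ⟨f, hf, hfs⟩ := hirr (s.image Quotient.out) (by
      intro x hx hx0
      obtain ⟨y, hy, rfl⟩ := Finset.mem_image.1 hx
      refine hs y hy ?_
      rw [← QuotientGroup.out_eq' y]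
      exact (QuotientGroup.eq_one_iff _).2 hx0)
    refine ⟨ℕ, QuotientGroup.lift N₀ f fun x hx => (hmem x).1 hx f hf, fun y hy => ?_⟩
    rw [← QuotientGroup.out_eq' y]
    exact hfs _ (Finset.mem_image_of_mem _ hy)
  · push Not at hirr
    obtain ⟨s, hs, hall⟩ := hirr
    have hlt : ∀ x ∈ s, V (insert x S) ⊂ V S := by
      intro x hx
      refine ⟨fun f hf y hy => hf y (Set.mem_insert_of_mem _ hy), fun hsub => hs x hx ?_⟩
      rw [hmem]
      exact fun f hf => hsub hf x (Set.mem_insert _ _)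
    choose! 𝒩 h1 h2 h3 using fun x (hx : x ∈ s) => ih _ (hlt x hx)
    refine ⟨⋃ x ∈ s, 𝒩 x, s.finite_toSet.biUnion fun x hx => h1 x hx, ?_, ?_⟩
    · intro N hN
      simp only [Set.mem_iUnion] at hN
      obtain ⟨x, hx, hN⟩ := hN
      exact h2 x hx N hN
    · intro r hr f hf
      obtain ⟨x, hx, hfx⟩ := hall f hf
      refine h3 x hx r (fun N hN => hr N ?_) f ?_
      · simp only [Set.mem_iUnion]
        exact ⟨x, hx, hN⟩
      · intro y hy
        rcases Set.mem_insert_iff.1 hy with rfl | hy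
        · exact hfx
        · exact hf y hy

end Pool.Agent.Run7.h1.RF
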